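import Pool.Agent.Helper29.BA.CndCCC
import Pool.Agent.Helper64.BA.Encode
import Pool.Agent.Helper94.BA.KI

/-!
# Project BA, module Q3: upper bounds of chains of nodes, and successors
-/

set_option autoImplicit false
set_option linter.unusedSectionVars false

namespace Pool.Agent.Helper94.BA

open Pool.Agent.Helper33.HM

section

variable {P₀ I : Type 1} [Preorder P₀] [LinearOrder I] {h : Ordinal.{0} → ℕ → ℕ → RO P₀}

theorem h19_exists_least (hI : KI I) {S : Set I} (hS : S.Nonempty) :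
    ∃ i ∈ S, ∀ j ∈ S, i ≤ j := by
  have := hI.wf
  refine ⟨WellFounded.min (wellFounded_lt (α := I)) S hS, WellFounded.min_mem _ S hS, ?_⟩
  intro j hj
  exact not_lt.1 (WellFounded.not_lt_min (wellFounded_lt (α := I)) S hj)

theorem nd_nonempty (hI : KI I) : Nonempty (Nd I h) := by
  obtain ⟨i, -, hi⟩ := h19_exists_least hI (S := Set.univ)
    (by have := hI.ne; exact Set.univ_nonempty)
  refine ⟨⟨fun _ => ∅, i, fun _ _ => rfl, ?_⟩⟩
  intro j hj
  exact absurd hj (not_lt.2 (hi j trivial))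

open Cardinal in
theorem nd_ub (hI : KI I) {Γ : Type 1} [Nonempty Γ] (hΓ : #Γ ≤ #Ordinal.{0}) (f : Γ → Nd I h)
    (hf : ∀ a b, f a ≤ f b ∨ f b ≤ f a) : ∃ τ : Nd I h, ∀ a, f a ≤ τ := by
  classical
  -- a bound of the lengths
  obtain ⟨j₀, hj₀⟩ : ∃ j₀ : I, ∀ a, (f a).len ≤ j₀ := by
    obtain ⟨g, hg⟩ : ∃ g : Ordinal.{0} → Γ, Function.Surjective g := by
      obtain ⟨⟨g, hg⟩⟩ := hΓ
      exact ⟨Function.invFun g, Function.invFun_surjective hg⟩
    obtain ⟨j, hj⟩ := hI.bdd fun β => (f (g β)).len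
    refine ⟨j, fun a => ?_⟩
    obtain ⟨β, rfl⟩ := hg a
    exact (hj β).le
  obtain ⟨L, hL, hmin⟩ := h19_exists_least hI (S := {j | ∀ a, (f a).len ≤ j}) ⟨j₀, hj₀⟩
  have hex : ∀ i < L, ∃ a, i < (f a).len := by
    intro i hi
    by_contra hcon
    push Not at hcon
    exact absurd hi (not_lt.2 (hmin i hcon))
  -- the union
  have hagr : ∀ a, Agr (f a).F (fun j => ⋃ b, (f b).F j) (f a).len := by
    intro a j hj
    apply Set.Subset.antisymm
    · exact Set.subset_iUnion (fun b => (f b).F j) a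
    · refine Set.iUnion_subset fun b => ?_
      rcases hf a b with hab | hba
      · exact (hab.2 j hj).symm.subset
      · by_cases hjb : j < (f b).len
        · exact (hba.2 j hjb).subset
        · rw [(f b).nf j (not_lt.1 hjb)]
          exact Set.empty_subset _
  refine ⟨⟨fun j => ⋃ b, (f b).F j, L, ?_, ?_⟩, fun a => ⟨hL a, hagr a⟩⟩
  · intro j hj
    rw [Set.iUnion_eq_empty]
    intro b
    exact (f b).nf j ((hL b).trans hj)
  · intro i hi
    obtain ⟨a, ha⟩ := hex i hi
    obtain ⟨h1, h2⟩ := (f a).good i ha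
    have hFi : (⋃ b, (f b).F i) = (f a).F i := (hagr a i ha).symm
    have hres : restr (fun j => ⋃ b, (f b).F j) i = restr (f a).F i :=
      restr_congr fun j hj => (hagr a j (hj.trans ha)).symm
    constructor
    · intro Y hY n k
      have hY' : Y ∈ (f a).F i := hFi ▸ hY
      obtain ⟨h3, h4⟩ := h1 Y hY' n k
      exact ⟨h3.congr h4 fun j hj => (hagr a j (hj.trans ha)).subset, h4⟩
    · show GoodIdeal _ (idealOf (restr (fun j => ⋃ b, (f b).F j) i) i (⋃ b, (f b).F i))
      rw [hres, hFi]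
      exact h2

theorem nd_succ (hI : KI I) (h₀ : AC P₀) (hne : Nonempty P₀) (σ : Nd I h)
    (J : Set (ℕ → RO (Cnd σ.F σ.len)))
    (hJ : GoodIdeal (fun β n k => (baseE (h β n k) : RO (Cnd σ.F σ.len))) J) :
    ∃ τ : Nd I h, σ ≤ τ ∧ σ.len < τ.len ∧ (∀ j < τ.len, j ≤ σ.len) ∧
      idealOf σ.F σ.len (τ.F σ.len) = J := by
  classical
  obtain ⟨L, hL, hmin⟩ := h19_exists_least hI (S := {j | σ.len < j}) (by
    obtain ⟨j, hj⟩ := hI.bdd fun _ => σ.len
    exact ⟨j, hj 0⟩)
  have hLt : ∀ j < L, j ≤ σ.len := by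
    intro j hj
    by_contra hcon
    exact absurd hj (not_lt.2 (hmin j (not_le.1 hcon)))
  set S : Set (Name P₀ I) := {Y | (∀ n k, (Y.1 n k).Valid σ.F ∧ (Y.1 n k).lt σ.len) ∧
    (valN Y : ℕ → RO (Cnd σ.F σ.len)) ∈ J} with hS
  have hid : idealOf σ.F σ.len S = J := by
    apply Set.Subset.antisymm
    · rintro y ⟨Y, hY, rfl⟩
      exact hY.2
    · intro y hy
      obtain ⟨a⟩ := hne
      obtain ⟨Y, hY, rfl⟩ := exists_name (cnd_ac h₀) ⟨⟨.nil a, trivial, trivial⟩⟩ y
      exact ⟨Y, ⟨hY, hy⟩, rfl⟩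
  have hagr : Agr σ.F (fun j => if j = σ.len then S else σ.F j) σ.len := by
    intro j hj
    exact (if_neg hj.ne).symm
  have hself : restr σ.F σ.len = σ.F := by
    funext j
    by_cases hj : j < σ.len
    · rw [restr, if_pos hj]
    · rw [restr, if_neg hj, σ.nf j (not_lt.1 hj)]
  refine ⟨⟨fun j => if j = σ.len then S else σ.F j, L, ?_, ?_⟩, ⟨le_of_lt hL, hagr⟩, hL, hLt, ?_⟩
  · intro j hj
    have h1 : σ.len < j := lt_of_lt_of_le hL hj
    rw [if_neg h1.ne']
    exact σ.nf j h1.le
  · intro i hi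
    rcases (hLt i hi).lt_or_eq with hlt | heq
    · obtain ⟨h1, h2⟩ := σ.good i hlt
      have hFi : (if i = σ.len then S else σ.F i) = σ.F i := if_neg hlt.ne
      have hres : restr (fun j => if j = σ.len then S else σ.F j) i = restr σ.F i :=
        restr_congr fun j hj => (hagr j (hj.trans hlt)).symm
      constructor
      · intro Y hY n k
        have hY' : Y ∈ σ.F i := hFi ▸ hY
        obtain ⟨h3, h4⟩ := h1 Y hY' n k
        exact ⟨h3.congr h4 fun j hj => (hagr j (hj.trans hlt)).subset, h4⟩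
      · show GoodIdeal _ (idealOf (restr (fun j => if j = σ.len then S else σ.F j) i) i
          (if i = σ.len then S else σ.F i))
        rw [hres, hFi]
        exact h2
    · subst heq
      have hFi : (if σ.len = σ.len then S else σ.F σ.len) = S := if_pos rfl
      have hres : restr (fun j => if j = σ.len then S else σ.F j) σ.len = σ.F := by
        rw [restr_congr fun j hj => (hagr j hj).symm, hself]
      constructor
      · intro Y hY n k
        have hY' : Y ∈ S := hFi ▸ hY
        obtain ⟨h3, h4⟩ := hY'.1 n k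
        exact ⟨h3.congr h4 fun j hj => (hagr j hj).subset, h4⟩
      · show GoodIdeal _ (idealOf (restr (fun j => if j = σ.len then S else σ.F j) σ.len) σ.len
          (if σ.len = σ.len then S else σ.F σ.len))
        rw [hres, hFi, hid]
        exact hJ
  · show idealOf σ.F σ.len (if σ.len = σ.len then S else σ.F σ.len) = J
    rw [if_pos rfl]
    exact hid

end

end Pool.Agent.Helper94.BA
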