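import Pool.Agent.Helper82.BA.DepChoice
import Pool.Agent.Helper49.BA.AdV

/-!
# Project BA, module B20: there is no bad pair of nodes with different first coordinates
-/

set_option autoImplicit false

namespace Pool.Agent.Helper94.BA

open Pool.Agent.Helper33.HM

universe u v

variable {B : Type u} [CompleteBooleanAlgebra B]

/-- The first coordinate of the branch given by the names `f` of nodes. -/
def h19_x {N : Type v} (f : ℕ → N → B) (c : N → List (Bool × ℕ)) : ℕ → B := fun k =>
  ⨆ p : ℕ × N, ⨆ m : ℕ, ⨆ _ : (c p.2)[k]? = some (true, m), f p.1 p.2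

/-- The second coordinate of the branch given by the names `f` of nodes. -/
def h19_w {N : Type v} (f : ℕ → N → B) (c : N → List (Bool × ℕ)) : ℕ → ℕ → B := fun k m =>
  ⨆ p : ℕ × N, ⨆ b : Bool, ⨆ _ : (c p.2)[k]? = some (b, m), f p.1 p.2

section

variable {N : Type v} {f : ℕ → N → B} {c : N → List (Bool × ℕ)}
  (hcomp : ∀ i j s s', f i s ⊓ f j s' ≠ ⊥ → c s <+: c s' ∨ c s' <+: c s)

include hcomp

/-- Compatible nodes have equal entries. -/
theorem h19_entry {i j : ℕ} {s s' : N} (h : f i s ⊓ f j s' ≠ ⊥) {k : ℕ} {e e' : Bool × ℕ}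
    (he : (c s)[k]? = some e) (he' : (c s')[k]? = some e') : e = e' := by
  rcases hcomp i j s s' h with ⟨r, hr⟩ | ⟨r, hr⟩
  · have hk : k < (c s).length := (List.getElem?_eq_some_iff.1 he).1
    rw [← hr, List.getElem?_append_left hk, he] at he'
    exact Option.some.inj he'
  · have hk : k < (c s').length := (List.getElem?_eq_some_iff.1 he').1
    rw [← hr, List.getElem?_append_left hk, he'] at he
    exact (Option.some.inj he).symm

theorem h19_w_bot {j : ℕ} {s : N} {k : ℕ} {e : Bool × ℕ} (he : (c s)[k]? = some e) {m : ℕ}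
    (hm : m ≠ e.2) : f j s ⊓ h19_w f c k m = ⊥ := by
  rw [h19_w, inf_iSup_eq]
  simp only [inf_iSup_eq, iSup_eq_bot]
  intro p b hb
  by_contra hcon
  have h1 := h19_entry hcomp hcon he hb
  exact hm (by rw [h1])

theorem h19_x_bot {j : ℕ} {s : N} {k : ℕ} {e : Bool × ℕ} (he : (c s)[k]? = some e)
    (hm : e.1 = false) : f j s ⊓ h19_x f c k = ⊥ := by
  rw [h19_x, inf_iSup_eq]
  simp only [inf_iSup_eq, iSup_eq_bot]
  intro p b hb
  by_contra hcon
  have h1 := h19_entry hcomp hcon he hb
  rw [h1] at hm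
  exact absurd hm (by simp)

omit hcomp in
theorem h19_le_w {j : ℕ} {s : N} {k : ℕ} {e : Bool × ℕ} (he : (c s)[k]? = some e) :
    f j s ≤ h19_w f c k e.2 := by
  refine le_trans ?_ (le_iSup _ (j, s))
  refine le_trans ?_ (le_iSup _ e.1)
  exact le_iSup_of_le he le_rfl

omit hcomp in
theorem h19_le_x {j : ℕ} {s : N} {k : ℕ} {e : Bool × ℕ} (he : (c s)[k]? = some e)
    (hm : e.1 = true) : f j s ≤ h19_x f c k := by
  refine le_trans ?_ (le_iSup _ (j, s))
  refine le_trans ?_ (le_iSup _ e.2)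
  refine le_iSup_of_le ?_ le_rfl
  rw [he, ← hm]

/-- The branch belongs to the tree. -/
theorem h19_brT {T : List (Bool × ℕ) → B} {b : B}
    (hT : ∀ j s t, t <+: c s → f j s ≤ T t)
    (hlen : ∀ k : ℕ, b ≤ ⨆ p : ℕ × N, ⨆ _ : k < (c p.2).length, f p.1 p.2) :
    b ≤ brT T (h19_x f c) (h19_w f c) := by
  refine le_inf (le_iInf fun i => ?_) (le_iInf fun t => ?_)
  · refine (hlen i).trans (iSup_le fun p => iSup_le fun hp => ?_)
    refine le_trans (h19_le_w (e := (c p.2)[i]) ?_) (le_iSup _ _)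
    rw [List.getElem?_eq_getElem hp]
  · rw [le_himp_iff]
    have h1 : b ⊓ brV (h19_x f c) (h19_w f c) t ≤
        (⨆ p : ℕ × N, ⨆ _ : t.length < (c p.2).length, f p.1 p.2) ⊓
          brV (h19_x f c) (h19_w f c) t := inf_le_inf_right _ (hlen t.length)
    refine h1.trans ?_
    simp only [iSup_inf_eq]
    refine iSup_le fun p => iSup_le fun hp => ?_
    by_cases ht : t <+: c p.2
    · exact inf_le_left.trans (hT _ _ _ ht)
    · -- some entry is different
      obtain ⟨i, hi, hne⟩ : ∃ (i : ℕ) (hi : i < t.length), t[i] ≠ (c p.2)[i]'(hi.trans hp) := by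
        by_contra hcon
        push Not at hcon
        apply ht
        rw [List.prefix_iff_eq_take]
        apply List.ext_getElem
        · rw [List.length_take]
          omega
        · intro i h1 h2
          rw [List.getElem_take]
          exact hcon i h1
      have he : (c p.2)[i]? = some ((c p.2)[i]'(hi.trans hp)) := by
        rw [List.getElem?_eq_getElem (hi.trans hp)]
      have h2 : brV (h19_x f c) (h19_w f c) t ≤
          (if (t[i]).1 then h19_x f c i else (h19_x f c i)ᶜ) ⊓ h19_w f c i (t[i]).2 :=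
        (iInf_le _ i).trans (iInf_le _ hi)
      have h3 : f p.1 p.2 ⊓ brV (h19_x f c) (h19_w f c) t ≤ ⊥ := by
        by_cases h4 : (t[i]).2 = ((c p.2)[i]'(hi.trans hp)).2
        · have h5 : (t[i]).1 ≠ ((c p.2)[i]'(hi.trans hp)).1 := fun h => hne (Prod.ext h h4)
          by_cases h6 : ((c p.2)[i]'(hi.trans hp)).1 = true
          · have h7 : (t[i]).1 = false := by
              rw [h6] at h5
              exact Bool.eq_false_iff.2 h5
            rw [h7] at h2
            refine le_trans (le_inf (inf_le_left.trans (h19_le_x he h6))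
              ((inf_le_right.trans h2).trans inf_le_left)) ?_
            simp
          · have h6' := Bool.eq_false_iff.2 h6
            have h7 : (t[i]).1 = true := by
              rw [h6'] at h5
              exact Bool.eq_true_of_not_eq_false h5
            rw [h7] at h2
            refine le_trans (inf_le_inf_left _ (h2.trans inf_le_left)) ?_
            simp only [if_true]
            exact (h19_x_bot hcomp he h6').le
        · refine le_trans (inf_le_inf_left _ (h2.trans inf_le_right)) ?_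
          exact (h19_w_bot hcomp he h4).le
      exact h3.trans bot_le

end

/-- N12. -/
theorem bad_bot {A : (ℕ → B) → B} (hA : IsAD A) {T : List (Bool × ℕ) → B} {H : ℕ → B}
    (hTA : ∀ x w, brT T x w ≤ A x)
    (h5 : ∀ (t₀ t₁ : List (Bool × ℕ)) (n : ℕ), (adV T t₀ H)ᶜ ⊓ (adV T t₁ H)ᶜ ≤
      ⨆ u : List (Bool × ℕ) × List (Bool × ℕ), ⨆ m : ℕ × ℕ,
        ⨆ _ : t₀ <+: u.1 ∧ t₁ <+: u.2 ∧ u.1.length = u.2.length ∧ n ≤ u.1.length,
          (adV T (u.1 ++ [(true, m.1)]) H)ᶜ ⊓ (adV T (u.2 ++ [(true, m.2)]) H)ᶜ)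
    (u : List (Bool × ℕ) × List (Bool × ℕ)) (m : ℕ × ℕ) (hu : u.1.length = u.2.length) :
    (adV T (u.1 ++ [(false, m.1)]) H)ᶜ ⊓ (adV T (u.2 ++ [(true, m.2)]) H)ᶜ = ⊥ := by
  set V : List (Bool × ℕ) × List (Bool × ℕ) → B :=
    fun s => (adV T s.1 H)ᶜ ⊓ (adV T s.2 H)ᶜ with hVdef
  set s₀ : List (Bool × ℕ) × List (Bool × ℕ) :=
    (u.1 ++ [(false, m.1)], u.2 ++ [(true, m.2)]) with hs₀
  set R : List (Bool × ℕ) × List (Bool × ℕ) → List (Bool × ℕ) × List (Bool × ℕ) → Prop :=
    fun s s' => ∃ (v : List (Bool × ℕ) × List (Bool × ℕ)) (m' : ℕ × ℕ),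
      s.1 <+: v.1 ∧ s.2 <+: v.2 ∧ v.1.length = v.2.length ∧
        s' = (v.1 ++ [(true, m'.1)], v.2 ++ [(true, m'.2)]) with hR
  have hV : ∀ s, V s ≤ ⨆ s', ⨆ _ : R s s', V s' := by
    intro s
    refine (h5 s.1 s.2 0).trans ?_
    refine iSup_le fun v => iSup_le fun m' => iSup_le fun h => ?_
    refine le_trans ?_ (le_iSup _ (v.1 ++ [(true, m'.1)], v.2 ++ [(true, m'.2)]))
    exact le_iSup_of_le ⟨v, m', h.1, h.2.1, h.2.2.1, rfl⟩ le_rfl
  obtain ⟨f, hf0, hf0', hfV, hfsup, -, hfR, hfRT⟩ := dep_choice V R hV s₀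
  -- comparability
  have hRT : ∀ s s', Relation.ReflTransGen R s s' → s.1 <+: s'.1 ∧ s.2 <+: s'.2 := by
    intro s s' h
    induction h with
    | refl => exact ⟨List.prefix_rfl, List.prefix_rfl⟩
    | tail _ h ih =>
      obtain ⟨v, m', h1, h2, -, rfl⟩ := h
      exact ⟨ih.1.trans (h1.trans (List.prefix_append _ _)),
        ih.2.trans (h2.trans (List.prefix_append _ _))⟩
  have hcomp : ∀ i j s s', f i s ⊓ f j s' ≠ ⊥ →
      (s.1 <+: s'.1 ∧ s.2 <+: s'.2) ∨ (s'.1 <+: s.1 ∧ s'.2 <+: s.2) := by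
    intro i j s s' h
    rcases le_total i j with hij | hij
    · left
      apply hRT
      by_contra hcon
      exact h (hfRT i j s s' hij hcon)
    · right
      apply hRT
      by_contra hcon
      exact h (by rw [inf_comm]; exact hfRT j i s' s hij hcon)
  -- all values at `j + 1` come from `R`
  have hsucc : ∀ j s', f (j + 1) s' ≠ ⊥ → ∃ s, f j s ≠ ⊥ ∧ R s s' := by
    intro j s' h
    have h1 : f (j + 1) s' ≤ ⨆ s, f j s := by
      rw [hfsup j, ← hfsup (j + 1)]
      exact le_iSup _ s'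
    obtain ⟨s, hs⟩ := exists_inf_ne_bot h h1
    refine ⟨s, fun h2 => hs (by rw [h2, inf_bot_eq]), ?_⟩
    by_contra hcon
    exact hs (by rw [inf_comm]; exact hfR j s s' hcon)
  have hlenj : ∀ j s, f j s ≠ ⊥ → j < s.1.length ∧ j < s.2.length := by
    intro j
    induction j with
    | zero =>
      intro s h
      have : s = s₀ := by
        by_contra hcon
        exact h (hf0' s hcon)
      rw [this, hs₀]
      simp
    | succ j ih =>
      intro s' h
      obtain ⟨s, hs, v, m', h1, h2, h3, rfl⟩ := hsucc j s' h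
      have h4 := ih s hs
      have h5 := h1.length_le
      have h6 := h2.length_le
      simp only [List.length_append, List.length_singleton]
      omega
  -- the suprema over long nodes
  have hsupj : ∀ j, V s₀ ≤ ⨆ s, ⨆ _ : f j s ≠ ⊥, f j s := by
    intro j
    rw [← hfsup j]
    refine iSup_le fun s => ?_
    by_cases h : f j s = ⊥
    · rw [h]; exact bot_le
    · exact le_trans (le_iSup_of_le h le_rfl) (le_iSup (fun s => ⨆ _ : f j s ≠ ⊥, f j s) s)
  have hx := h19_brT (f := f) (c := Prod.fst) (T := T) (b := V s₀)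
    (fun i j s s' h => (hcomp i j s s' h).imp And.left And.left)
    (fun j s t ht => (hfV j s).trans (inf_le_left.trans (bad_le T H ht)))
    (by
      intro k
      refine (hsupj k).trans (iSup_le fun s => iSup_le fun hs => ?_)
      refine le_trans ?_ (le_iSup _ (k, s))
      exact le_iSup_of_le (hlenj k s hs).1 le_rfl)
  have hy := h19_brT (f := f) (c := Prod.snd) (T := T) (b := V s₀)
    (fun i j s s' h => (hcomp i j s s' h).imp And.right And.right)
    (fun j s t ht => (hfV j s).trans (inf_le_right.trans (bad_le T H ht)))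
    (by
      intro k
      refine (hsupj k).trans (iSup_le fun s => iSup_le fun hs => ?_)
      refine le_trans ?_ (le_iSup _ (k, s))
      exact le_iSup_of_le (hlenj k s hs).2 le_rfl)
  set x := h19_x f Prod.fst with hxdef
  set y := h19_x f Prod.snd with hydef
  have h6 : V s₀ ≤ eqV x y ⊔ finV (x ⊓ y) :=
    (le_inf (hx.trans (hTA _ _)) (hy.trans (hTA _ _))).trans (hA.ad x y)
  -- `x` and `y` are different
  have h7 : V s₀ ⊓ eqV x y = ⊥ := by
    have ha : V s₀ ⊓ x u.1.length = ⊥ := by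
      rw [← hf0]
      refine h19_x_bot (f := f) (c := Prod.fst)
        (fun i j s s' h => (hcomp i j s s' h).imp And.left And.left) (e := (false, m.1)) ?_ rfl
      rw [hs₀]
      simp
    have hb : V s₀ ≤ y u.1.length := by
      rw [← hf0]
      refine h19_le_x (f := f) (c := Prod.snd) (e := (true, m.2)) ?_ rfl
      rw [hs₀]
      simp [hu]
    have hc : eqV x y ≤ y u.1.length ⇨ x u.1.length := (iInf_le _ _).trans inf_le_right
    rw [le_himp_iff] at hc
    rw [eq_bot_iff, ← ha]
    refine le_inf inf_le_left (le_trans (le_inf inf_le_right (inf_le_left.trans hb)) hc)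
  -- the intersection is infinite
  have h8 : V s₀ ⊓ finV (x ⊓ y) = ⊥ := by
    rw [finV, inf_iSup_eq, iSup_eq_bot]
    intro k
    rw [eq_bot_iff]
    refine le_trans (inf_le_inf_right _ (hsupj (k + 1))) ?_
    simp only [iSup_inf_eq]
    refine iSup_le fun s' => iSup_le fun h => ?_
    obtain ⟨s, hs, v, m', h1, h2, h3, rfl⟩ := hsucc k s' h
    have h4 := hlenj k s hs
    have h5 := h1.length_le
    have hk : k ≤ v.1.length := by omega
    have hxk : f (k + 1) (v.1 ++ [(true, m'.1)], v.2 ++ [(true, m'.2)]) ≤ x v.1.length :=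
      h19_le_x (f := f) (c := Prod.fst) (e := (true, m'.1)) (by simp) rfl
    have hyk : f (k + 1) (v.1 ++ [(true, m'.1)], v.2 ++ [(true, m'.2)]) ≤ y v.1.length :=
      h19_le_x (f := f) (c := Prod.snd) (e := (true, m'.2)) (by simp [h3]) rfl
    have hc : (⨅ n : ℕ, ⨅ _ : k ≤ n, ((x ⊓ y) n)ᶜ) ≤ ((x ⊓ y) v.1.length)ᶜ :=
      (iInf_le _ _).trans (iInf_le _ hk)
    refine le_trans (inf_le_inf (le_inf hxk hyk) hc) ?_
    exact (inf_compl_eq_bot (a := (x ⊓ y) v.1.length)).le
  have h9 : V s₀ ≤ ⊥ := by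
    refine le_trans (le_inf le_rfl h6) ?_
    rw [inf_sup_left, h7, h8, sup_idem]
  exact le_bot_iff.1 h9

end Pool.Agent.Helper94.BA
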