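import Pool.Agent.Helper7.BA.MaxName
import Pool.Agent.Helper46.BA.FinCalc
import Pool.Agent.Helper28.BA.JPcalc
import Pool.Agent.Helper49.BA.AdV

/-!
# Project BA, module B17: a set which is decisive for all nodes
-/

set_option autoImplicit false

namespace Pool.Agent.Helper94.BA

open Pool.Agent.Helper33.HM

universe u

variable {B : Type u} [CompleteBooleanAlgebra B] {K : Set (Finset ℕ → B)} {A : (ℕ → B) → B}

/-- One step of the construction. -/
theorem h19_dec_step (hc : CCC B) (T : List (Bool × ℕ) → B) (t : List (Bool × ℕ)) (G : ℕ → B)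
    (hG : JP K A G = ⊤) :
    ∃ G' : ℕ → B, G' ≤ G ∧ JP K A G' = ⊤ ∧
      ∀ X' : ℕ → B, X' ≤ G → JP K A X' ⊓ adV T t X' ≤ adV T t G' := by
  obtain ⟨X, hX⟩ := max_name hc
    (fun X : ℕ → B => (⨅ k, X k ⇨ G k) ⊓ (JP K A X ⊓ adV T t X)) (by
      intro x y
      refine le_inf ?_ (le_inf ?_ ?_)
      · refine le_iInf fun k => ?_
        rw [le_himp_iff]
        have h1 : (⨅ n, iffV (x n) (y n)) ≤ y k ⇨ x k := (iInf_le _ k).trans inf_le_right
        have h2 : (⨅ n, iffV (x n) (y n)) ⊓ y k ≤ x k := le_himp_iff.1 h1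
        have h3 : ((⨅ k, x k ⇨ G k) ⊓ (JP K A x ⊓ adV T t x)) ⊓ x k ≤ G k := by
          rw [← le_himp_iff]
          exact inf_le_left.trans (iInf_le _ k)
        refine le_trans (le_inf ?_ ?_) h3
        · exact inf_le_left.trans inf_le_right
        · exact (le_inf (inf_le_left.trans inf_le_left) inf_le_right).trans h2
      · refine le_trans ?_ (JP_ext K A x y)
        exact inf_le_inf_left _ (inf_le_right.trans inf_le_left)
      · refine le_trans ?_ (adV_ext T t x y)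
        exact inf_le_inf_left _ (inf_le_right.trans inf_le_right))
  set e : B := ⨆ X : ℕ → B, (⨅ k, X k ⇨ G k) ⊓ (JP K A X ⊓ adV T t X) with he
  have hXG : ∀ k, e ⊓ X k ≤ G k := fun k => by
    rw [← le_himp_iff, ← hX]
    exact inf_le_left.trans (iInf_le _ k)
  refine ⟨fun k => G k ⊓ (X k ⊔ eᶜ), fun k => inf_le_left, ?_, ?_⟩
  · rw [eq_top_iff, ← sup_compl_eq_top (x := e)]
    refine sup_le ?_ ?_
    · refine le_trans (le_inf ?_ ?_) (JP_sub K A X _)
      · refine le_iInf fun k => ?_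
        rw [le_himp_iff]
        exact le_inf (hXG k) (inf_le_right.trans le_sup_left)
      · rw [← hX]
        exact inf_le_right.trans inf_le_left
    · refine le_trans (le_inf ?_ ?_) (JP_sub K A G _)
      · refine le_iInf fun k => ?_
        rw [le_himp_iff]
        exact le_inf inf_le_right (inf_le_left.trans le_sup_right)
      · rw [hG]
        exact le_top
  · intro X' hX'
    have h1 : JP K A X' ⊓ adV T t X' ≤ e := by
      rw [he]
      refine le_trans ?_ (le_iSup _ X')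
      refine le_inf (le_iInf fun k => ?_) le_rfl
      rw [le_himp_iff]
      exact inf_le_right.trans (hX' k)
    refine h1.trans (le_trans (le_inf ?_ ?_) (adV_ext T t X _))
    · refine le_iInf fun k => le_inf ?_ ?_
      · rw [le_himp_iff]
        exact le_inf (hXG k) (inf_le_right.trans le_sup_left)
      · rw [le_himp_iff]
        have h2 : e ⊓ (G k ⊓ (X k ⊔ eᶜ)) ≤ e ⊓ (X k ⊔ eᶜ) := inf_le_inf_left _ inf_le_right
        refine h2.trans ?_
        rw [inf_sup_left, inf_compl_eq_bot, sup_bot_eq]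
        exact inf_le_right
    · rw [← hX]
      exact inf_le_right.trans inf_le_right

/-- N8. A set `H` which is decisive for all nodes. -/
theorem decisive (hc : CCC B) (hK : SmallIdeal K) (htop : JP K A ⊤ = ⊤)
    (hPP : ∀ Y : ℕ → ℕ → B, (∀ n, Y (n + 1) ≤ Y n) → (∀ n, JP K A (Y n) = ⊤) →
      ∃ Z ≤ Y 0, (∀ n, finV (Z ⊓ (Y n)ᶜ) = ⊤) ∧ JP K A Z = ⊤) (T : List (Bool × ℕ) → B) :
    ∃ H : ℕ → B, JP K A H = ⊤ ∧ ∀ (t : List (Bool × ℕ)) (H' : ℕ → B), H' ≤ H →
      JP K A H' ⊓ adV T t H' ≤ adV T t H := by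
  classical
  choose g hg1 hg2 hg3 using fun (t : List (Bool × ℕ)) (G : {G : ℕ → B // JP K A G = ⊤}) =>
    h19_dec_step (A := A) hc T t G.1 G.2
  obtain ⟨enu, henu⟩ := exists_surjective_nat (List (Bool × ℕ))
  let s : ℕ → {G : ℕ → B // JP K A G = ⊤} := fun n =>
    Nat.rec ⟨⊤, htop⟩ (fun i G => ⟨g (enu i) G, hg2 (enu i) G⟩) n
  have hs : ∀ n, (s (n + 1)).1 = g (enu n) (s n) := fun n => rfl
  obtain ⟨Z, hZ0, hZ1, hZ2⟩ := hPP (fun n => (s n).1)
    (fun n => by rw [hs]; exact hg1 _ _) (fun n => (s n).2)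
  refine ⟨Z, hZ2, fun t H' hH' => ?_⟩
  obtain ⟨m, hmt⟩ := henu t
  -- the intersection with the `m`-th set
  have hJ : JP K A H' ≤ JP K A (H' ⊓ (s m).1) := by
    refine le_trans (le_inf ?_ le_rfl) (JP_almost hK A H' (H' ⊓ (s m).1))
    have h1 : H' ⊓ (H' ⊓ (s m).1)ᶜ ≤ Z ⊓ ((s m).1)ᶜ := by
      rw [compl_inf, inf_sup_left, inf_compl_eq_bot, bot_sup_eq]
      exact inf_le_inf_right _ hH'
    refine le_trans ?_ (finV_mono h1)
    rw [hZ1 m]
    exact le_top
  have h2 : JP K A H' ⊓ adV T t H' ≤ adV T t (s (m + 1)).1 := by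
    have h3 := hg3 t (s m) (H' ⊓ (s m).1) inf_le_right
    have h4 : adV T t H' ≤ adV T t (H' ⊓ (s m).1) := adV_anti T t inf_le_left
    refine le_trans (inf_le_inf hJ h4) ?_
    rw [hs, hmt]
    exact h3
  refine h2.trans (le_trans (le_inf le_rfl ?_) (adV_almost T t (s (m + 1)).1 Z))
  rw [hZ1 (m + 1)]
  exact le_top

end Pool.Agent.Helper94.BA
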